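import Pool.Agent.Lib.helper10.CisMem

namespace Pool.Agent.Results.MP_bb030f_lc.CoNPComplete

open Pool.Agent.Cx Pool.Agent.Cis Polynomial

/-- `M` is the adjacency matrix of a CIS graph -/
def CisRec (M : List (List Bool)) : Prop := IsGraph M ∧ CIS (graphOf M)

def ver (z : List (List Bool) × List Bool × List Bool) : Prop :=
  ¬ IsGraph z.1 ∨ (mC z.1 z.2.1 ∧ mI z.1 z.2.2 ∧
    ¬ ∃ i < z.1.length, z.2.1.getD i false = true ∧ z.2.2.getD i false = true)

lemma ver_iff {M : List (List Bool)} (h : IsGraph M) (c s : List Bool) : ver (M, c, s) ↔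
    Maximal (graphOf M).IsClique (vset _ c) ∧ Maximal (graphOf M).IsIndepSet (vset _ s) ∧
      ¬ (vset M.length c ∩ vset _ s).Nonempty := by
  simp only [ver, h, not_true, false_or, mC_iff h, mI_iff h]
  simp only [vset, Set.Nonempty, Fin.exists_iff, Set.mem_inter_iff, Set.mem_ofPred_eq, exists_prop]

theorem result : CoNPComplete (Lang CisRec) := by
  classical
  refine ⟨inCoNP_Lang (V := fun z => decide (ver z)) (PP.decide ?_) (8 * X + 3) (fun M hM => ?_)
    fun M z h g => ?_, (hard_between (Q := CIS) (fun _ _ => id) fun _ _ h => h.edge.tri).coNPHard⟩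
  · have := pp_isGraph
    unfold ver; fun_prop
  · by_cases g : IsGraph M
    · simp only [CisRec, g, true_and, CIS, not_forall] at hM
      obtain ⟨C, S, a1, a2, a3⟩ := hM
      obtain ⟨c, c1, rfl⟩ := exists_vset C
      obtain ⟨s, s1, rfl⟩ := exists_vset S
      have := length_lt_size M
      exact ⟨(c, s), by simp; omega, decide_eq_true ((ver_iff g c s).2 ⟨a1, a2, a3⟩)⟩
    · exact ⟨([], []), by simp, by simp [ver, g]⟩
  · obtain ⟨a, b, c⟩ := (ver_iff g.1 z.1 z.2).1 (of_decide_eq_true h)
    exact c (g.2 _ _ a b)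

end Pool.Agent.Results.MP_bb030f_lc.CoNPComplete
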